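import Mathlib
import Pool.Agent.MP_0e046d_gt.Top

namespace Pool.Agent.Results.MP_0e046d_gt.ExtentTop

open Pool.Agent.MP_0e046d_gt

universe u v

/-- Let `X`, `Y` be Tychonoff spaces, `Y` normal. If `C_p(Y)` is homeomorphic to a subspace of
`C_p(X)` then `ext Y ≤ ext X`. -/
theorem result (X : Type u) (Y : Type v) [TopologicalSpace X] [TopologicalSpace Y]
    [T35Space X] [T35Space Y] [NormalSpace Y] (T : Cp Y → Cp X) (hT : Topology.IsEmbedding T) :
    Cardinal.lift.{u} (extent Y) ≤ Cardinal.lift.{v} (extent X) := by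
  have : T4Space Y := {}
  exact extent_le_top (hT.isInducing.comp inducing_incl)

/-- Q1: `l`-equivalent normal spaces have the same extent. -/
theorem q1 (X : Type u) (Y : Type v) [TopologicalSpace X] [TopologicalSpace Y]
    [T35Space X] [T35Space Y] [NormalSpace X] [NormalSpace Y] (h : LEquivalent X Y) :
    Cardinal.lift.{v} (extent X) = Cardinal.lift.{u} (extent Y) := by
  obtain ⟨e⟩ := h
  exact le_antisymm (result Y X e e.toHomeomorph.isEmbedding)
    (result X Y e.symm e.symm.toHomeomorph.isEmbedding)

/-- Q2: `l`-equivalent perfectly normal spaces have the same extent. -/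
theorem q2 (X : Type u) (Y : Type v) [TopologicalSpace X] [TopologicalSpace Y]
    [T35Space X] [T35Space Y] [PerfectlyNormalSpace X] [PerfectlyNormalSpace Y]
    (h : LEquivalent X Y) : Cardinal.lift.{v} (extent X) = Cardinal.lift.{u} (extent Y) :=
  q1 X Y h

end Pool.Agent.Results.MP_0e046d_gt.ExtentTop
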